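import Pool.Agent.W_MP_d99112_an.Final

/-!
# Truncated cosine transforms of the Xi kernel with several pairs of non-real zeros

For `R = (3/2) log 2` the function `F_R(z) = ∫_0^R Φ(x) cos(zx) dx` has at least eight distinct
non-real zeros: two zeros `w₁, w₂` in the open first quadrant, near `24.652 + 25.443 i` and
`30.226 + 13.074 i`, together with their images under `z ↦ -z` and `z ↦ conj z`.
-/

namespace Pool.Agent.Results.MP_d99112_an.TwoQuadruples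

open Pool.Agent.W_MP_d99112_an

theorem result :
    ∃ R : ℝ, 0 < R ∧ R = 3 / 2 * Real.log 2 ∧
      8 ≤ {w : ℂ | w.im ≠ 0 ∧ F R w = 0}.encard ∧
      ∃ w₁ w₂ : ℂ, F R w₁ = 0 ∧ F R w₂ = 0 ∧
        24.6 < w₁.re ∧ w₁.re < 24.7 ∧ 25.4 < w₁.im ∧ w₁.im < 25.5 ∧
        30.2 < w₂.re ∧ w₂.re < 30.3 ∧ 13 < w₂.im ∧ w₂.im < 13.1 := by
  obtain ⟨w₁, a1, a2, a3, a4, a5⟩ := zero1'
  obtain ⟨w₂, b1, b2, b3, b4, b5⟩ := zero2'
  refine ⟨RR, RR_pos, rfl, ?_, w₁, w₂, a5, b5, a1, a2, a3, a4, b1, b2, b3, b4⟩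
  apply eight_le (w₁ := w₁) (w₂ := w₂) a1 a2 (by linarith) b1 (by linarith)
  · rintro w ⟨h1, h2⟩
    refine ⟨?_, ?_⟩
    · simpa using h1
    · rw [F_neg, h2]
  · rintro w ⟨h1, h2⟩
    refine ⟨?_, ?_⟩
    · simpa using h1
    · rw [F_conj, h2, map_zero]
  · exact ⟨by linarith, a5⟩
  · exact ⟨by linarith, b5⟩

end Pool.Agent.Results.MP_d99112_an.TwoQuadruples
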